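import Pool.Agent.Helper64.HG.Stmts

/-! Module CC of MP_866009_co. -/

set_option autoImplicit false

namespace Pool.Agent.Helper64.HG

section cc

variable {V : Type} {G : SimpleGraph V}

lemma cc_last_iff {A : List V} (hA : A.Nodup) (i : ℕ) (hi : i < A.length) :
    A.getLast? = some A[i] ↔ i + 1 = A.length := by
  rw [List.getLast?_eq_getElem?]
  constructor
  · intro h
    have h1 : A.length - 1 < A.length := by omega
    rw [List.getElem?_eq_getElem h1] at h
    have h2 := (List.Nodup.getElem_inj_iff hA).mp (Option.some.inj h)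
    omega
  · intro h
    have h1 : A.length - 1 < A.length := by omega
    rw [List.getElem?_eq_getElem h1]
    have h2 : A.length - 1 = i := by omega
    simp only [h2]

lemma cc_head_iff {A : List V} (hA : A.Nodup) (i : ℕ) (hi : i < A.length) :
    A.head? = some A[i] ↔ i = 0 := by
  rw [List.head?_eq_getElem?]
  constructor
  · intro h
    have h1 : 0 < A.length := by omega
    rw [List.getElem?_eq_getElem h1] at h
    have h2 := (List.Nodup.getElem_inj_iff hA).mp (Option.some.inj h)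
    omega
  · intro h
    subst h
    rw [List.getElem?_eq_getElem hi]

lemma cc_append (A B : List V) : IP G (A ++ B) ↔ IP G A ∧ IP G B ∧
    ∀ a ∈ A, ∀ b ∈ B, a ≠ b ∧ (G.Adj a b ↔ (A.getLast? = some a ∧ B.head? = some b)) := by
  constructor
  · rintro ⟨hn, h⟩
    rw [List.nodup_append] at hn
    obtain ⟨hnA, hnB, hd⟩ := hn
    refine ⟨⟨hnA, ?_⟩, ⟨hnB, ?_⟩, ?_⟩
    · intro i j hi hj hij
      have := h i j (by simp; omega) (by simp; omega) hij
      rwa [List.getElem_append_left hi, List.getElem_append_left hj] at this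
    · intro i j hi hj hij
      have := h (A.length + i) (A.length + j) (by simp; omega) (by simp; omega) (by omega)
      rw [List.getElem_append_right (by omega), List.getElem_append_right (by omega)] at this
      simp only [Nat.add_sub_cancel_left] at this
      rw [this]
      omega
    · intro a ha b hb
      refine ⟨hd a ha b hb, ?_⟩
      obtain ⟨i, hi, rfl⟩ := List.getElem_of_mem ha
      obtain ⟨j, hj, rfl⟩ := List.getElem_of_mem hb
      have := h i (A.length + j) (by simp; omega) (by simp; omega) (by omega)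
      rw [List.getElem_append_left hi, List.getElem_append_right (by omega)] at this
      simp only [Nat.add_sub_cancel_left] at this
      rw [this, cc_last_iff hnA, cc_head_iff hnB]
      omega
  · rintro ⟨⟨hnA, hA⟩, ⟨hnB, hB⟩, hc⟩
    refine ⟨?_, ?_⟩
    · rw [List.nodup_append]
      exact ⟨hnA, hnB, fun a ha b hb => (hc a ha b hb).1⟩
    · intro i j hi hj hij
      rw [List.length_append] at hi hj
      by_cases h1 : i < A.length
      · by_cases h2 : j < A.length
        · rw [List.getElem_append_left h1, List.getElem_append_left h2]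
          exact hA i j h1 h2 hij
        · rw [List.getElem_append_left h1, List.getElem_append_right (by omega)]
          rw [(hc _ (List.getElem_mem h1) _ (List.getElem_mem _)).2, cc_last_iff hnA,
            cc_head_iff hnB]
          omega
      · rw [List.getElem_append_right (by omega), List.getElem_append_right (by omega)]
        rw [hB _ _ _ _ (by omega)]
        omega

lemma cc_single (x : V) : IP G [x] := by
  refine ⟨by simp, ?_⟩
  intro i j hi hj hij
  simp at hi hj
  omega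

lemma cc_nil : IP G [] := by
  refine ⟨by simp, ?_⟩
  intro i j hi hj hij
  simp at hi

lemma cc_cons (x : V) (B : List V) : IP G (x :: B) ↔ IP G B ∧
    ∀ b ∈ B, x ≠ b ∧ (G.Adj x b ↔ B.head? = some b) := by
  have := cc_append (G := G) [x] B
  simp only [List.singleton_append, List.mem_singleton, forall_eq, List.getLast?_singleton,
    true_and] at this
  rw [this]
  constructor
  · rintro ⟨_, h1, h2⟩
    exact ⟨h1, h2⟩
  · rintro ⟨h1, h2⟩
    exact ⟨cc_single x, h1, h2⟩

lemma cc_snoc (A : List V) (x : V) : IP G (A ++ [x]) ↔ IP G A ∧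
    ∀ a ∈ A, a ≠ x ∧ (G.Adj a x ↔ A.getLast? = some a) := by
  rw [cc_append]
  simp only [List.mem_singleton, forall_eq, List.head?_cons, and_true]
  constructor
  · rintro ⟨h1, _, h2⟩
    exact ⟨h1, h2⟩
  · rintro ⟨h1, h2⟩
    exact ⟨h1, cc_single x, h2⟩

lemma cc_rev {A : List V} (h : IP G A) : IP G A.reverse := by
  induction A with
  | nil => simpa using h
  | cons x B ih =>
    rw [cc_cons] at h
    rw [List.reverse_cons, cc_snoc]
    refine ⟨ih h.1, ?_⟩
    intro a ha
    have ha' : a ∈ B := by simpa using ha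
    refine ⟨fun h1 => (h.2 a ha').1 h1.symm, ?_⟩
    rw [List.getLast?_reverse, SimpleGraph.adj_comm]
    exact (h.2 a ha').2

lemma cc_infix {A B C : List V} (h : IP G (A ++ B ++ C)) : IP G B := by
  rw [cc_append, cc_append] at h
  exact h.1.2.1

/-- gluing two induced paths at a vertex -/
lemma cc_glue {A B : List V} {x : V} (hA : IP G (A ++ [x])) (hB : IP G (x :: B))
    (hAB : Anti G A B) : IP G (A ++ x :: B) := by
  rw [cc_append]
  have hA' := (cc_snoc A x).mp hA
  have hB' := (cc_cons x B).mp hB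
  refine ⟨hA'.1, hB, ?_⟩
  intro a ha b hb
  rcases List.mem_cons.mp hb with rfl | hb
  · refine ⟨(hA'.2 a ha).1, ?_⟩
    rw [(hA'.2 a ha).2]
    simp
  · refine ⟨(hAB a ha b hb).1, ?_⟩
    constructor
    · intro h
      exact absurd h (hAB a ha b hb).2
    · rintro ⟨_, h2⟩
      simp only [List.head?_cons, Option.some.injEq] at h2
      exact absurd h2 (hB'.2 b hb).1

lemma cc_head_mem {A : List V} {x : V} (h : A.head? = some x) : x ∈ A :=
  List.mem_of_head? h

lemma cc_last_mem {A : List V} {x : V} (h : A.getLast? = some x) : x ∈ A :=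
  List.mem_of_getLast? h

/-- link and nonadjacent ends -/
lemma cc_link_iff {A : List V} {u w : V} (hA : A ≠ []) :
    IP G (u :: (A ++ [w])) ↔ (Link G u A w ∧ u ≠ w ∧ ¬ G.Adj u w) := by
  rw [cc_cons, cc_snoc]
  have hh : ∀ b, (A ++ [w]).head? = some b ↔ A.head? = some b := by
    intro b
    cases A with
    | nil => exact absurd rfl hA
    | cons a A' => simp
  constructor
  · rintro ⟨⟨h1, h2⟩, h3⟩
    have h4 := h3 w (by simp)
    rw [hh] at h4
    refine ⟨⟨hA, h1, ?_, ?_, ?_, ?_⟩, h4.1, ?_⟩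
    · intro hu
      exact (h3 u (by simp [hu])).1 rfl
    · intro hw
      exact (h2 w hw).1 rfl
    · intro x hx
      have := h3 x (by simp [hx])
      rw [hh] at this
      exact this.2
    · intro x hx
      rw [SimpleGraph.adj_comm]
      exact (h2 x hx).2
    · intro h5
      have := cc_head_mem (h4.2.mp h5)
      exact (h2 w this).1 rfl
  · rintro ⟨⟨_, h1, hu, hw, h2, h3⟩, h4, h5⟩
    refine ⟨⟨h1, ?_⟩, ?_⟩
    · intro a ha
      refine ⟨fun h => hw (h ▸ ha), ?_⟩
      rw [SimpleGraph.adj_comm]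
      exact h3 a ha
    · intro b hb
      rw [hh]
      simp only [List.mem_append, List.mem_singleton] at hb
      rcases hb with hb | rfl
      · exact ⟨fun h => hu (h ▸ hb), h2 b hb⟩
      · refine ⟨h4, ?_⟩
        constructor
        · intro h
          exact absurd h h5
        · intro h
          exact absurd (cc_head_mem h) hw

lemma cc_link_left {A : List V} {u w : V} (h : Link G u A w) : IP G (u :: A) := by
  obtain ⟨_, h1, hu, hw, h2, h3⟩ := h
  rw [cc_cons]
  exact ⟨h1, fun b hb => ⟨fun h => hu (h ▸ hb), h2 b hb⟩⟩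

lemma cc_link_right {A : List V} {u w : V} (h : Link G u A w) : IP G (A ++ [w]) := by
  obtain ⟨_, h1, hu, hw, h2, h3⟩ := h
  rw [cc_snoc]
  refine ⟨h1, fun b hb => ⟨fun h => hw (h ▸ hb), ?_⟩⟩
  rw [SimpleGraph.adj_comm]
  exact h3 b hb

lemma cc_mk {A : List V} {u w : V} (hA : A ≠ []) (h1 : IP G (u :: A)) (h2 : IP G (A ++ [w])) :
    Link G u A w := by
  rw [cc_cons] at h1
  rw [cc_snoc] at h2
  refine ⟨hA, h1.1, ?_, ?_, ?_, ?_⟩
  · intro h
    exact (h1.2 u h).1 rfl
  · intro h
    exact (h2.2 w h).1 rfl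
  · intro x hx
    exact (h1.2 x hx).2
  · intro x hx
    rw [SimpleGraph.adj_comm]
    exact (h2.2 x hx).2

lemma cc_anti_symm {A B : List V} (h : Anti G A B) : Anti G B A := fun b hb a ha =>
  ⟨(h a ha b hb).1.symm, fun h1 => (h a ha b hb).2 h1.symm⟩

lemma cc_first {Y : List V} {P : V → Prop} (h : ∃ y ∈ Y, P y) :
    ∃ A z B, Y = A ++ z :: B ∧ P z ∧ ∀ a ∈ A, ¬ P a := by
  induction Y with
  | nil => obtain ⟨y, hy, _⟩ := h; simp at hy
  | cons x X ih =>
    by_cases hx : P x
    · exact ⟨[], x, X, by simp, hx, by simp⟩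
    · have : ∃ y ∈ X, P y := by
        obtain ⟨y, hy, h1⟩ := h
        rcases List.mem_cons.mp hy with rfl | hy
        · exact absurd h1 hx
        · exact ⟨y, hy, h1⟩
      obtain ⟨A, z, B, h1, h2, h3⟩ := ih this
      refine ⟨x :: A, z, B, by simp [h1], h2, ?_⟩
      intro a ha
      rcases List.mem_cons.mp ha with rfl | ha
      · exact hx
      · exact h3 a ha

/-- the segment up to the first contact -/
lemma cc_seg {Y A B : List V} {p z w : V} (hY : IP G (p :: Y)) (h : Y = A ++ z :: B)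
    (hw : w ∉ Y) (hz : G.Adj w z) (hA : ∀ a ∈ A, ¬ G.Adj w a) : Link G p (A ++ [z]) w := by
  subst h
  have h1 : IP G (p :: (A ++ [z])) := by
    have : IP G ([] ++ (p :: (A ++ [z])) ++ B) := by simpa using hY
    exact cc_infix this
  have h2 : IP G (A ++ [z]) := ((cc_cons _ _).mp h1).1
  refine cc_mk (by simp) h1 ?_
  rw [cc_snoc]
  refine ⟨h2, ?_⟩
  intro a ha
  refine ⟨?_, ?_⟩
  · rintro rfl
    apply hw
    simp only [List.mem_append, List.mem_singleton] at ha
    rcases ha with ha | rfl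
    · simp [ha]
    · simp
  · simp only [List.getLast?_append, List.getLast?_singleton, Option.some_or, Option.some.injEq]
    rcases List.mem_append.mp ha with ha | ha
    · constructor
      · intro h
        exact absurd h.symm (hA a ha)
      · intro h
        exact absurd h.symm (((cc_snoc _ _).mp h2).2 a ha).1
    · rw [List.mem_singleton] at ha
      subst ha
      simp [hz.symm]

lemma cc_two_aux {Y : List V} {a b : V} (hY : IP G Y) (ha : a ∉ Y) (hb : b ∉ Y)
    (hab : ∀ y ∈ Y, ¬ (G.Adj a y ∧ G.Adj b y)) : ∀ (n : ℕ) (A Z B : List V), Z.length ≤ n →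
    Y = A ++ Z ++ B → (∃ y ∈ Z, G.Adj a y) → (∃ y ∈ Z, G.Adj b y) →
    ∃ A Z B, Y = A ++ Z ++ B ∧ (Link G a Z b ∨ Link G b Z a) := by
  intro n
  induction n with
  | zero =>
    intro A Z B hn _ h1
    obtain ⟨y, hy, _⟩ := h1
    have : Z = [] := List.length_eq_zero_iff.mp (by omega)
    subst this
    simp at hy
  | succ n ih =>
    intro A Z B hn hYZ h1 h2
    have hZne : Z ≠ [] := by
      rintro rfl
      obtain ⟨y, hy, _⟩ := h1
      simp at hy
    obtain ⟨z, Z1, hZ1⟩ := List.exists_cons_of_ne_nil hZne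
    obtain ⟨Z2, z', hZ2⟩ : ∃ Z2 z', Z = Z2 ++ [z'] :=
      ⟨Z.dropLast, Z.getLast hZne, (List.dropLast_append_getLast hZne).symm⟩
    have hZip : IP G Z := by
      rw [hYZ] at hY
      exact cc_infix hY
    by_cases c1 : (∃ y ∈ Z1, G.Adj a y) ∧ (∃ y ∈ Z1, G.Adj b y)
    · refine ih (A ++ [z]) Z1 B ?_ ?_ c1.1 c1.2
      · rw [hZ1] at hn
        simp only [List.length_cons] at hn
        omega
      · rw [hYZ, hZ1]
        simp
    by_cases c2 : (∃ y ∈ Z2, G.Adj a y) ∧ (∃ y ∈ Z2, G.Adj b y)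
    · refine ih A Z2 (z' :: B) ?_ ?_ c2.1 c2.2
      · rw [hZ2] at hn
        simp only [List.length_append, List.length_singleton] at hn
        omega
      · rw [hYZ, hZ2]
        simp
    have haZ : a ∉ Z := by
      intro h
      apply ha
      rw [hYZ]
      simp [h]
    have hbZ : b ∉ Z := by
      intro h
      apply hb
      rw [hYZ]
      simp [h]
    have habZ : ∀ y ∈ Z, ¬ (G.Adj a y ∧ G.Adj b y) := by
      intro y hy
      apply hab
      rw [hYZ]
      simp [hy]
    have hhead : Z.head? = some z := by simp [hZ1]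
    have hlast : Z.getLast? = some z' := by simp [hZ2]
    have hzZ : z ∈ Z := cc_head_mem hhead
    have hz'Z : z' ∈ Z := cc_last_mem hlast
    -- generic: contacts only at the head
    have k1 : ∀ x : V, (∃ y ∈ Z, G.Adj x y) → ¬ (∃ y ∈ Z1, G.Adj x y) →
        ∀ y ∈ Z, (G.Adj x y ↔ Z.head? = some y) := by
      intro x hx1 hx2 y hy
      rw [hhead]
      have hw : ∀ y ∈ Z, G.Adj x y → y = z := by
        intro y hy hxy
        rw [hZ1] at hy
        rcases List.mem_cons.mp hy with h | h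
        · exact h
        · exact absurd ⟨y, h, hxy⟩ hx2
      constructor
      · intro h
        rw [hw y hy h]
      · intro h
        obtain ⟨y0, hy0, h0⟩ := hx1
        have := hw y0 hy0 h0
        have h2 : z = y := Option.some.inj h
        rw [← h2, ← this]
        exact h0
    have k2 : ∀ x : V, (∃ y ∈ Z, G.Adj x y) → ¬ (∃ y ∈ Z2, G.Adj x y) →
        ∀ y ∈ Z, (G.Adj x y ↔ Z.getLast? = some y) := by
      intro x hx1 hx2 y hy
      rw [hlast]
      have hw : ∀ y ∈ Z, G.Adj x y → y = z' := by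
        intro y hy hxy
        rw [hZ2] at hy
        rcases List.mem_append.mp hy with h | h
        · exact absurd ⟨y, h, hxy⟩ hx2
        · simpa using h
      constructor
      · intro h
        rw [hw y hy h]
      · intro h
        obtain ⟨y0, hy0, h0⟩ := hx1
        have := hw y0 hy0 h0
        have h2 : z' = y := Option.some.inj h
        rw [← h2, ← this]
        exact h0
    -- both contacts of the same vertex impossible
    have k3 : ∀ x x' : V, (∀ y ∈ Z, ¬ (G.Adj x y ∧ G.Adj x' y)) →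
        (∃ y ∈ Z, G.Adj x' y) →
        (∀ y ∈ Z, (G.Adj x y ↔ Z.head? = some y)) →
        (∀ y ∈ Z, (G.Adj x y ↔ Z.getLast? = some y)) → False := by
      intro x x' hxx' hx' e1 e2
      have a1 := (e1 z hzZ).mpr hhead
      have a2 : z' = z := by
        have := (e2 z hzZ).mp a1
        rw [hlast] at this
        exact Option.some.inj this
      have a3 : Z1 = [] := by
        rcases Z1 with _ | ⟨x1, X1⟩
        · rfl
        · exfalso
          have hn : Z.Nodup := hZip.1
          have : Z.getLast? = some z := by rw [hlast, a2]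
          have h5 : z ∈ x1 :: X1 := by
            apply cc_last_mem (A := x1 :: X1)
            rw [hZ1] at this
            simpa using this
          rw [hZ1] at hn
          exact (List.nodup_cons.mp hn).1 h5
      obtain ⟨y, hy, h6⟩ := hx'
      rw [hZ1, a3] at hy
      have : y = z := by simpa using hy
      subst this
      exact hxx' y hzZ ⟨a1, h6⟩
    refine ⟨A, Z, B, hYZ, ?_⟩
    by_cases d1 : ∃ y ∈ Z1, G.Adj a y
    · have d2 : ¬ ∃ y ∈ Z1, G.Adj b y := fun h => c1 ⟨d1, h⟩
      have e1 := k1 b h2 d2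
      by_cases d3 : ∃ y ∈ Z2, G.Adj a y
      · have d4 : ¬ ∃ y ∈ Z2, G.Adj b y := fun h => c2 ⟨d3, h⟩
        have e2 := k2 b h2 d4
        exact (k3 b a (fun y hy h => habZ y hy ⟨h.2, h.1⟩) h1 e1 e2).elim
      · have e2 := k2 a h1 d3
        exact Or.inr ⟨hZne, hZip, hbZ, haZ, e1, e2⟩
    · have e1 := k1 a h1 d1
      by_cases d3 : ∃ y ∈ Z2, G.Adj b y
      · have d4 : ¬ ∃ y ∈ Z2, G.Adj a y := fun h => c2 ⟨h, d3⟩
        have e2 := k2 a h1 d4
        exact (k3 a b habZ h2 e1 e2).elim
      · have e2 := k2 b h2 d3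
        exact Or.inl ⟨hZne, hZip, haZ, hbZ, e1, e2⟩

lemma cc_two {Y : List V} {a b : V} (hY : IP G Y) (ha : a ∉ Y) (hb : b ∉ Y)
    (hab : ∀ y ∈ Y, ¬ (G.Adj a y ∧ G.Adj b y)) (h1 : ∃ y ∈ Y, G.Adj a y)
    (h2 : ∃ y ∈ Y, G.Adj b y) :
    ∃ A Z B, Y = A ++ Z ++ B ∧ (Link G a Z b ∨ Link G b Z a) :=
  cc_two_aux hY ha hb hab Y.length [] Y [] le_rfl (by simp) h1 h2

/-- the configuration: two cycles sharing the edge `st` and a path between them -/
structure CCX (G : SimpleGraph V) (s t p q c e : V) (Q1 Q2 E1 E2 Y : List V) : Prop where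
  st : G.Adj s t
  hQ : Link G t (Q1 ++ p :: (Q2 ++ [c])) s
  hE : Link G s (e :: (E1 ++ q :: E2)) t
  anti : Anti G (Q1 ++ p :: (Q2 ++ [c])) (e :: (E1 ++ q :: E2))
  Yne : Y ≠ []
  Yip : IP G Y
  Ys : ∀ y ∈ Y, y ≠ s ∧ ¬ G.Adj s y
  Yt : t ∉ Y
  YQ : ∀ y ∈ Y, y ∉ Q1 ++ p :: (Q2 ++ [c])
  YE : ∀ y ∈ Y, y ∉ e :: (E1 ++ q :: E2)
  Yp : ∀ y ∈ Y, (G.Adj p y ↔ Y.head? = some y)
  Yq : ∀ y ∈ Y, (G.Adj q y ↔ Y.getLast? = some y)
  YQ1 : ∀ y ∈ Y, ∀ x ∈ Q1, ¬ G.Adj x y
  YQ2 : ∀ y ∈ Y, ∀ x ∈ Q2, ¬ G.Adj x y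
  YE1 : ∀ y ∈ Y, ∀ x ∈ E1, ¬ G.Adj x y
  YE2 : ∀ y ∈ Y, ∀ x ∈ E2, ¬ G.Adj x y

lemma cc_link_rev (hR : ST_REV) {A : List V} {u w : V} (h : Link G u A w) :
    Link G w A.reverse u := hR V G u w A h

lemma CCX.symm (hR : ST_REV) {s t p q c e : V} {Q1 Q2 E1 E2 Y : List V}
    (h : CCX G s t p q c e Q1 Q2 E1 E2 Y) :
    CCX G s t q p e c E2.reverse E1.reverse Q2.reverse Q1.reverse Y.reverse := by
  refine ⟨h.st, ?_, ?_, ?_, ?_, cc_rev h.Yip, ?_, ?_, ?_, ?_, ?_, ?_, ?_, ?_, ?_, ?_⟩
  · have := hR V G _ _ _ h.hE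
    simpa using this
  · have := hR V G _ _ _ h.hQ
    simpa using this
  · intro a ha b hb
    apply cc_anti_symm h.anti
    · simp only [List.mem_append, List.mem_cons, List.mem_reverse, List.not_mem_nil, or_false]
        at ha ⊢
      tauto
    · simp only [List.mem_append, List.mem_cons, List.mem_reverse, List.not_mem_nil, or_false]
        at hb ⊢
      tauto
  · simpa using h.Yne
  · intro y hy
    exact h.Ys y (by simpa using hy)
  · simpa using h.Yt
  · intro y hy
    have := h.YE y (by simpa using hy)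
    simp only [List.mem_append, List.mem_cons, List.mem_reverse, List.not_mem_nil, or_false]
      at this ⊢
    tauto
  · intro y hy
    have := h.YQ y (by simpa using hy)
    simp only [List.mem_append, List.mem_cons, List.mem_reverse, List.not_mem_nil, or_false]
      at this ⊢
    tauto
  · intro y hy
    rw [h.Yq y (by simpa using hy)]
    simp
  · intro y hy
    rw [h.Yp y (by simpa using hy)]
    simp
  · intro y hy x hx
    exact h.YE2 y (by simpa using hy) x (by simpa using hx)
  · intro y hy x hx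
    exact h.YE1 y (by simpa using hy) x (by simpa using hx)
  · intro y hy x hx
    exact h.YQ2 y (by simpa using hy) x (by simpa using hx)
  · intro y hy x hx
    exact h.YQ1 y (by simpa using hy) x (by simpa using hx)

section ctx

variable {s t p q c e : V} {Q1 Q2 E1 E2 Y : List V}

lemma CCX.cyc1 (hCY1 : ST_CY1) (h : CCX G s t p q c e Q1 Q2 E1 E2 Y) :
    IC G (t :: ((Q1 ++ p :: (Q2 ++ [c])) ++ [s])) :=
  hCY1 V G _ _ _ h.hQ h.st.symm

lemma CCX.notin1 (h : CCX G s t p q c e Q1 Q2 E1 E2 Y) {y : V} (hy : y ∈ Y) :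
    y ∉ t :: ((Q1 ++ p :: (Q2 ++ [c])) ++ [s]) := by
  intro hm
  rcases List.mem_cons.mp hm with rfl | hm
  · exact h.Yt hy
  rcases List.mem_append.mp hm with hm | hm
  · exact h.YQ y hy hm
  · exact (h.Ys y hy).1 (by simpa using hm)

/-- a vertex of `Y` has at most one neighbour on the first cycle -/
lemma CCX.one1 (hCY1 : ST_CY1) (hO : OneP G) (h : CCX G s t p q c e Q1 Q2 E1 E2 Y)
    {y : V} (hy : y ∈ Y) {a b : V} (ha : a ∈ t :: ((Q1 ++ p :: (Q2 ++ [c])) ++ [s]))
    (hb : b ∈ t :: ((Q1 ++ p :: (Q2 ++ [c])) ++ [s])) (h1 : G.Adj a y) (h2 : G.Adj b y) :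
    a = b :=
  hO _ (h.cyc1 hCY1) y (h.notin1 hy) a ha b hb h1.symm h2.symm

lemma CCX.Qnd (h : CCX G s t p q c e Q1 Q2 E1 E2 Y) : (Q1 ++ p :: (Q2 ++ [c])).Nodup :=
  h.hQ.2.1.1

lemma CCX.pc (h : CCX G s t p q c e Q1 Q2 E1 E2 Y) : p ≠ c := by
  have := h.Qnd
  rw [List.nodup_append] at this
  have h2 := (List.nodup_cons.mp this.2.1).1
  intro h3
  apply h2
  simp [h3]

lemma CCX.tQ (h : CCX G s t p q c e Q1 Q2 E1 E2 Y) : t ∉ Q1 ++ p :: (Q2 ++ [c]) :=
  h.hQ.2.2.1

lemma CCX.sQ (h : CCX G s t p q c e Q1 Q2 E1 E2 Y) : s ∉ Q1 ++ p :: (Q2 ++ [c]) :=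
  h.hQ.2.2.2.1

lemma CCX.sc (h : CCX G s t p q c e Q1 Q2 E1 E2 Y) : G.Adj s c := by
  refine (h.hQ.2.2.2.2.2 c (by simp)).mpr ?_
  rw [show Q1 ++ p :: (Q2 ++ [c]) = (Q1 ++ p :: Q2) ++ [c] by simp]
  exact List.getLast?_concat

lemma CCX.case1a (hCY1 : ST_CY1) (hEAR : ST_EAR) (hG : Girth5 G) (hT : ¬ HasT G) (hO : OneP G)
    (h : CCX G s t p q c e Q1 Q2 E1 E2 Y) (ht : ∃ y ∈ Y, G.Adj t y) :
    (∀ y ∈ Y, ¬ G.Adj c y) ∧ G.Adj p t := by
  have hcyc := h.cyc1 hCY1
  have hcL : c ∈ t :: ((Q1 ++ p :: (Q2 ++ [c])) ++ [s]) := by simp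
  have htL : t ∈ t :: ((Q1 ++ p :: (Q2 ++ [c])) ++ [s]) := by simp
  have hpL : p ∈ t :: ((Q1 ++ p :: (Q2 ++ [c])) ++ [s]) := by simp
  have hct : c ≠ t := by
    intro h1
    apply h.tQ
    rw [← h1]
    simp
  have hpt : p ≠ t := by
    intro h1
    apply h.tQ
    rw [← h1]
    simp
  have hcY : c ∉ Y := fun hc => h.YQ c hc (by simp)
  have part1 : ∀ y ∈ Y, ¬ G.Adj c y := by
    by_contra hcon
    push Not at hcon
    obtain ⟨A, Z, B, hYZ, hl⟩ := cc_two (a := c) (b := t) h.Yip hcY h.Yt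
      (fun y hy h1 => hct (h.one1 hCY1 hO hy hcL htL h1.1 h1.2)) hcon ht
    have hZY : ∀ z ∈ Z, z ∈ Y := by
      intro z hz
      rw [hYZ]
      simp [hz]
    have hhead : ∀ z ∈ Z, Y.head? = some z → Z.head? = some z := by
      intro z hz h1
      have hn := h.Yip.1
      cases A with
      | nil =>
        cases Z with
        | nil => simp at hz
        | cons x X =>
          rw [hYZ] at h1
          simpa using h1
      | cons x X =>
        exfalso
        rw [hYZ] at h1 hn
        simp only [List.cons_append, List.head?_cons, Option.some.injEq] at h1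
        simp only [List.cons_append, List.nodup_cons] at hn
        apply hn.1
        rw [h1]
        simp [hz]
    have hctadj : ∀ z ∈ Z, Z.head? = some z → G.Adj c z ∨ G.Adj t z := by
      intro z hz h1
      rcases hl with hl | hl
      · exact Or.inl ((hl.2.2.2.2.1 z hz).mpr h1)
      · exact Or.inr ((hl.2.2.2.2.1 z hz).mpr h1)
    have hrest : ∀ x ∈ Z, ∀ z ∈ t :: ((Q1 ++ p :: (Q2 ++ [c])) ++ [s]), z ≠ c → z ≠ t →
        ¬ G.Adj x z := by
      intro x hx z hz h1 h2 h3
      have hxY := hZY x hx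
      simp only [List.mem_cons, List.mem_append, List.not_mem_nil, or_false] at hz
      rcases hz with rfl | (hz | rfl | hz | rfl) | rfl
      · exact h2 rfl
      · exact h.YQ1 x hxY z hz h3.symm
      · have h4 := (h.Yp x hxY).mp h3.symm
        rcases hctadj x hx (hhead x hx h4) with h5 | h5
        · exact h1 (h.one1 hCY1 hO hxY hpL hcL h3.symm h5)
        · exact h2 (h.one1 hCY1 hO hxY hpL htL h3.symm h5)
      · exact h.YQ2 x hxY z hz h3.symm
      · exact h1 rfl
      · exact (h.Ys x hxY).2 h3.symm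
    have hadj : G.Adj c t := by
      rcases hl with hl | hl
      · exact hEAR V G _ Z c t hG hT hO hcyc hcL htL hct hl
          (fun x hx => h.notin1 (hZY x hx)) hrest
      · exact (hEAR V G _ Z t c hG hT hO hcyc htL hcL hct.symm hl
          (fun x hx => h.notin1 (hZY x hx)) (fun x hx z hz h1 h2 => hrest x hx z hz h2 h1)).symm
    exact hG.1 s c t h.sc hadj h.st
  refine ⟨part1, ?_⟩
  obtain ⟨A, z, B, hYZ, hz, hA⟩ := cc_first ht
  have hpY : p ∉ Y := fun hp => h.YQ p hp (by simp)
  have hIPp : IP G (p :: Y) := by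
    rw [cc_cons]
    refine ⟨h.Yip, ?_⟩
    intro b hb
    exact ⟨fun h1 => hpY (h1 ▸ hb), h.Yp b hb⟩
  have hlink := cc_seg hIPp hYZ h.Yt hz hA
  have hZY : ∀ x ∈ A ++ [z], x ∈ Y := by
    intro x hx
    rw [hYZ]
    simp only [List.mem_append, List.mem_cons, List.not_mem_nil, or_false] at hx ⊢
    tauto
  refine hEAR V G _ (A ++ [z]) p t hG hT hO hcyc hpL htL hpt hlink
    (fun x hx => h.notin1 (hZY x hx)) ?_
  intro x hx w hw h1 h2 h3
  have hxY := hZY x hx
  simp only [List.mem_cons, List.mem_append, List.not_mem_nil, or_false] at hw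
  rcases hw with rfl | (hw | rfl | hw | rfl) | rfl
  · exact h2 rfl
  · exact h.YQ1 x hxY w hw h3.symm
  · exact h1 rfl
  · exact h.YQ2 x hxY w hw h3.symm
  · exact part1 x hxY h3.symm
  · exact (h.Ys x hxY).2 h3.symm

lemma CCX.IPpY (h : CCX G s t p q c e Q1 Q2 E1 E2 Y) : IP G (p :: Y) := by
  have hpY : p ∉ Y := fun hp => h.YQ p hp (by simp)
  rw [cc_cons]
  refine ⟨h.Yip, ?_⟩
  intro b hb
  exact ⟨fun h1 => hpY (h1 ▸ hb), h.Yp b hb⟩

lemma CCX.IPYq (h : CCX G s t p q c e Q1 Q2 E1 E2 Y) : IP G (Y ++ [q]) := by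
  have hqY : q ∉ Y := fun hq => h.YE q hq (by simp)
  rw [cc_snoc]
  refine ⟨h.Yip, ?_⟩
  intro b hb
  refine ⟨fun h1 => hqY (h1 ▸ hb), ?_⟩
  rw [SimpleGraph.adj_comm]
  exact h.Yq b hb

lemma CCX.sadjQ (h : CCX G s t p q c e Q1 Q2 E1 E2 Y) {x : V}
    (hx : x ∈ Q1 ++ p :: (Q2 ++ [c])) (h1 : G.Adj s x) : x = c := by
  have h2 := (h.hQ.2.2.2.2.2 x hx).mp h1
  rw [show Q1 ++ p :: (Q2 ++ [c]) = (Q1 ++ p :: Q2) ++ [c] by simp] at h2
  simp only [List.getLast?_append, List.getLast?_singleton, Option.some_or,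
    Option.some.injEq] at h2
  exact h2.symm

lemma CCX.sadjE (h : CCX G s t p q c e Q1 Q2 E1 E2 Y) {x : V}
    (hx : x ∈ e :: (E1 ++ q :: E2)) (h1 : G.Adj s x) : x = e := by
  have h2 := (h.hE.2.2.2.2.1 x hx).mp h1
  simp only [List.head?_cons, Option.some.injEq] at h2
  exact h2.symm

lemma CCX.se (h : CCX G s t p q c e Q1 Q2 E1 E2 Y) : G.Adj s e :=
  (h.hE.2.2.2.2.1 e (by simp)).mpr (by simp)

lemma CCX.cQ (h : CCX G s t p q c e Q1 Q2 E1 E2 Y) : c ∉ Q1 ++ p :: Q2 := by
  have := h.Qnd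
  rw [show Q1 ++ p :: (Q2 ++ [c]) = (Q1 ++ p :: Q2) ++ [c] by simp, List.nodup_append] at this
  intro hc
  exact this.2.2 c hc c (by simp) rfl

lemma CCX.eE (h : CCX G s t p q c e Q1 Q2 E1 E2 Y) : e ∉ E1 ++ q :: E2 := by
  have := h.hE.2.1.1
  exact (List.nodup_cons.mp this).1

/-- case I: a contact with `t` -/
lemma CCX.case1 (hCY1 : ST_CY1) (hEAR : ST_EAR) (hR : ST_REV) (hG : Girth5 G) (hT : ¬ HasT G)
    (hO : OneP G) (hW : ¬ HasW G) (h : CCX G s t p q c e Q1 Q2 E1 E2 Y)
    (ht : ∃ y ∈ Y, G.Adj t y) : False := by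
  obtain ⟨k1, k2⟩ := h.case1a hCY1 hEAR hG hT hO ht
  obtain ⟨k3, k4⟩ := (h.symm hR).case1a hCY1 hEAR hG hT hO
    (by obtain ⟨y, hy, h1⟩ := ht; exact ⟨y, by simpa using hy, h1⟩)
  have k3' : ∀ y ∈ Y, ¬ G.Adj e y := fun y hy => k3 y (by simpa using hy)
  -- the cycle
  have c1 : IP G (p :: (Q2 ++ [c])) := by
    have := h.hQ.2.1
    rw [cc_append] at this
    exact this.2.1
  have c2 : IP G ((q :: Y.reverse) ++ [p]) := by
    have h1 : IP G (Y.reverse ++ [p]) := by simpa using cc_rev h.IPpY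
    have h2 : IP G (q :: Y.reverse) := by simpa using cc_rev h.IPYq
    have h3 := (cc_link_iff (G := G) (A := Y.reverse) (u := q) (w := p)
      (by simpa using h.Yne)).mpr ⟨cc_mk (by simpa using h.Yne) h2 h1,
        (h.anti p (by simp) q (by simp)).1.symm,
        fun h4 => (h.anti p (by simp) q (by simp)).2 h4.symm⟩
    simpa using h3
  have c3 : IP G ((e :: E1) ++ [q]) := by
    have := h.hE.2.1
    have h2 : IP G ([] ++ ((e :: E1) ++ [q]) ++ E2) := by simpa using this
    exact cc_infix h2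
  have c4 : IP G ((q :: Y.reverse) ++ p :: (Q2 ++ [c])) := by
    refine cc_glue c2 c1 ?_
    intro a ha b hb
    simp only [List.mem_cons, List.mem_reverse] at ha
    simp only [List.mem_append, List.mem_cons, List.not_mem_nil, or_false] at hb
    rcases ha with rfl | ha
    · have : b ∈ Q1 ++ p :: (Q2 ++ [c]) := by
        simp only [List.mem_append, List.mem_cons, List.not_mem_nil, or_false]
        tauto
      have h5 := h.anti b this a (by simp)
      exact ⟨h5.1.symm, fun h6 => h5.2 h6.symm⟩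
    · rcases hb with hb | rfl
      · exact ⟨fun h6 => h.YQ a ha (by rw [h6]; simp [hb]),
          fun h6 => h.YQ2 a ha b hb h6.symm⟩
      · exact ⟨fun h6 => h.YQ a ha (by rw [h6]; simp), fun h6 => k1 a ha h6.symm⟩
  have c5 : IP G ((e :: E1) ++ q :: (Y.reverse ++ p :: (Q2 ++ [c]))) := by
    refine cc_glue c3 (by simpa using c4) ?_
    intro a ha b hb
    have haE : a ∈ e :: (E1 ++ q :: E2) := by
      simp only [List.mem_append, List.mem_cons] at ha ⊢
      tauto
    simp only [List.mem_append, List.mem_cons, List.mem_reverse, List.not_mem_nil,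
      or_false] at hb
    rcases hb with hb | hb
    · refine ⟨fun h6 => h.YE b hb (h6 ▸ haE), ?_⟩
      rcases List.mem_cons.mp ha with rfl | ha
      · exact k3' b hb
      · exact h.YE1 b hb a ha
    · have : b ∈ Q1 ++ p :: (Q2 ++ [c]) := by
        simp only [List.mem_append, List.mem_cons, List.not_mem_nil, or_false]
        tauto
      have h5 := h.anti b this a haE
      exact ⟨h5.1.symm, fun h6 => h5.2 h6.symm⟩
  have hM : Link G s (e :: (E1 ++ q :: (Y.reverse ++ p :: Q2))) c := by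
    have c6 : IP G ((e :: (E1 ++ q :: (Y.reverse ++ p :: Q2))) ++ [c]) := by simpa using c5
    refine cc_mk (by simp) ?_ c6
    rw [cc_cons]
    refine ⟨((cc_snoc _ _).mp c6).1, ?_⟩
    intro b hb
    simp only [List.mem_append, List.mem_cons, List.mem_reverse] at hb
    simp only [List.head?_cons, Option.some.injEq]
    rcases hb with rfl | hb | rfl | hb | hb
    · exact ⟨h.se.ne, by simp [h.se]⟩
    · have hbE : b ∈ e :: (E1 ++ q :: E2) := by simp [hb]
      exact ⟨fun h6 => h.hE.2.2.1 (h6 ▸ hbE), fun h6 => (h.sadjE hbE h6).symm,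
        fun h6 => h6 ▸ h.se⟩
    · have hbE : b ∈ e :: (E1 ++ b :: E2) := by simp
      exact ⟨fun h6 => h.hE.2.2.1 (h6 ▸ hbE), fun h6 => (h.sadjE hbE h6).symm,
        fun h6 => h6 ▸ h.se⟩
    · exact ⟨(h.Ys b hb).1.symm, fun h6 => absurd h6 (h.Ys b hb).2,
        fun h6 => absurd (h6 ▸ h.se) (h.Ys b hb).2⟩
    · have hbQ : b ∈ Q1 ++ p :: (Q2 ++ [c]) := by
        simp only [List.mem_append, List.mem_cons, List.not_mem_nil, or_false]
        tauto
      refine ⟨fun h6 => h.sQ (h6 ▸ hbQ), fun h6 => ?_, fun h6 => ?_⟩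
      · exfalso
        have h7 := h.sadjQ hbQ h6
        apply h.cQ
        rw [← h7]
        simp only [List.mem_append, List.mem_cons]
        tauto
      · exact absurd h6.symm (h.anti b hbQ e (by simp)).1
  have hIC := hCY1 V G _ _ _ hM h.sc
  apply hW
  refine ⟨t, _, s, p, q, hIC, ?_, by simp, by simp, by simp, ?_, ?_, ?_, h.st.symm, k2.symm,
    k4.symm⟩
  · intro hm
    simp only [List.mem_append, List.mem_cons, List.mem_reverse, List.not_mem_nil,
      or_false] at hm
    have hE' := h.hE.2.2.2.1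
    have hQ' := h.tQ
    simp only [List.mem_append, List.mem_cons, List.not_mem_nil, or_false] at hE' hQ'
    have h9 := h.Yt
    have h10 := h.st.ne
    tauto
  · intro h6
    apply h.sQ
    rw [h6]
    simp
  · intro h6
    apply h.hE.2.2.1
    rw [h6]
    simp
  · exact (h.anti p (by simp) q (by simp)).1

/-- case II: no contact with `t`, a contact with `c` -/
lemma CCX.case2 (hCY1 : ST_CY1) (hCY2 : ST_CY2) (hEAR : ST_EAR) (hHUB : ST_HUB)
    (hG : Girth5 G) (hT : ¬ HasT G) (hO : OneP G) (hW : ¬ HasW G) (hK : ¬ HasK G)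
    (h : CCX G s t p q c e Q1 Q2 E1 E2 Y)
    (ht : ∀ y ∈ Y, ¬ G.Adj t y) (hc : ∃ y ∈ Y, G.Adj c y) : False := by
  have hcyc := h.cyc1 hCY1
  have hcL : c ∈ t :: ((Q1 ++ p :: (Q2 ++ [c])) ++ [s]) := by simp
  have hpL : p ∈ t :: ((Q1 ++ p :: (Q2 ++ [c])) ++ [s]) := by simp
  have hcY : c ∉ Y := fun hc => h.YQ c hc (by simp)
  have hpY : p ∉ Y := fun hc => h.YQ p hc (by simp)
  obtain ⟨A, z, B, hYZ, hz, hA⟩ := cc_first hc
  have hAY : ∀ x ∈ A, x ∈ Y := by
    intro x hx
    rw [hYZ]
    simp [hx]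
  have hzY : z ∈ Y := by
    rw [hYZ]
    simp
  have hBY : ∀ x ∈ B, x ∈ Y := by
    intro x hx
    rw [hYZ]
    simp [hx]
  have hlink := cc_seg h.IPpY hYZ hcY hz hA
  have hZY : ∀ x ∈ A ++ [z], x ∈ Y := by
    intro x hx
    rw [hYZ]
    simp only [List.mem_append, List.mem_cons, List.not_mem_nil, or_false] at hx ⊢
    tauto
  have hpc : G.Adj p c := by
    refine hEAR V G _ (A ++ [z]) p c hG hT hO hcyc hpL hcL h.pc hlink
      (fun x hx => h.notin1 (hZY x hx)) ?_
    intro x hx w hw h1 h2 h3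
    have hxY := hZY x hx
    simp only [List.mem_cons, List.mem_append, List.not_mem_nil, or_false] at hw
    rcases hw with rfl | (hw | rfl | hw | rfl) | rfl
    · exact ht x hxY h3.symm
    · exact h.YQ1 x hxY w hw h3.symm
    · exact h1 rfl
    · exact h.YQ2 x hxY w hw h3.symm
    · exact h2 rfl
    · exact (h.Ys x hxY).2 h3.symm
  have hAne : A ≠ [] := by
    rintro rfl
    have h1 : G.Adj p z := (h.Yp z hzY).mpr (by rw [hYZ]; simp)
    exact h.pc (h.one1 hCY1 hO hzY hpL hcL h1 hz)
  have hYnd : Y.Nodup := h.Yip.1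
  -- nothing in z :: B is adjacent to p
  have hpB : ∀ x ∈ z :: B, ¬ G.Adj p x := by
    intro x hx h1
    have h2 := (h.Yp x (by rw [hYZ]; simp only [List.mem_append]; exact Or.inr hx)).mp h1
    obtain ⟨a, A', rfl⟩ := List.exists_cons_of_ne_nil hAne
    rw [hYZ] at h2 hYnd
    simp only [List.cons_append, List.head?_cons, Option.some.injEq] at h2
    simp only [List.cons_append, List.nodup_cons] at hYnd
    apply hYnd.1
    rw [h2]
    simp only [List.mem_append]
    exact Or.inr hx
  have hqA : ∀ x ∈ A, ¬ G.Adj q x := by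
    intro x hx h1
    have h2 := (h.Yq x (hAY x hx)).mp h1
    rw [hYZ] at h2 hYnd
    rw [List.getLast?_append] at h2
    have h3 : (z :: B).getLast? = some x := by
      cases hB : (z :: B).getLast? with
      | none => simp at hB
      | some v =>
        rw [hB] at h2
        simpa using h2
    have h4 := cc_last_mem h3
    rw [List.nodup_append] at hYnd
    exact hYnd.2.2 x hx x h4 rfl
  -- the second link
  have w1 : IP G ((p :: Q1.reverse) ++ [t]) := by
    have h1 := cc_link_left h.hQ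
    have h2 : IP G ([] ++ (t :: (Q1 ++ [p])) ++ (Q2 ++ [c])) := by simpa using h1
    have h3 := cc_rev (cc_infix h2)
    simpa using h3
  have w2 : IP G ((t :: E2.reverse) ++ [q]) := by
    have h1 := cc_link_right h.hE
    have h2 : IP G ((e :: E1) ++ (q :: (E2 ++ [t])) ++ []) := by simpa using h1
    have h3 := cc_rev (cc_infix h2)
    simpa using h3
  have w3 : IP G (q :: (B.reverse ++ [z])) := by
    have h1 := h.IPYq
    rw [hYZ] at h1
    have h2 : IP G (A ++ (z :: (B ++ [q])) ++ []) := by simpa using h1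
    have h3 := cc_rev (cc_infix h2)
    simpa using h3
  have w4 : IP G ((t :: E2.reverse) ++ q :: (B.reverse ++ [z])) := by
    refine cc_glue w2 w3 ?_
    intro a ha b hb
    have hbY : b ∈ Y := by
      rw [hYZ]
      simp only [List.mem_append, List.mem_cons, List.mem_reverse, List.not_mem_nil,
        or_false] at hb ⊢
      tauto
    simp only [List.mem_cons, List.mem_reverse] at ha
    rcases ha with rfl | ha
    · exact ⟨fun h6 => h.Yt (h6 ▸ hbY), ht b hbY⟩
    · exact ⟨fun h6 => h.YE b hbY (by rw [← h6]; simp [ha]), h.YE2 b hbY a ha⟩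
  have w5 : IP G ((p :: Q1.reverse) ++ t :: (E2.reverse ++ q :: (B.reverse ++ [z]))) := by
    refine cc_glue w1 (by simpa using w4) ?_
    intro a ha b hb
    have haQ : a ∈ Q1 ++ p :: (Q2 ++ [c]) := by
      simp only [List.mem_append, List.mem_cons, List.mem_reverse, List.not_mem_nil,
        or_false] at ha ⊢
      tauto
    have hb' : (b ∈ E2 ∨ b = q) ∨ b ∈ z :: B := by
      simp only [List.mem_append, List.mem_cons, List.mem_reverse, List.not_mem_nil,
        or_false] at hb ⊢
      tauto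
    rcases hb' with hb' | hb'
    · have hbE : b ∈ e :: (E1 ++ q :: E2) := by
        simp only [List.mem_append, List.mem_cons]
        tauto
      exact h.anti a haQ b hbE
    · have hbY : b ∈ Y := by
        rw [hYZ]
        simp only [List.mem_append]
        exact Or.inr hb'
      refine ⟨fun h6 => h.YQ b hbY (h6 ▸ haQ), ?_⟩
      simp only [List.mem_cons, List.mem_reverse] at ha
      rcases ha with rfl | ha
      · exact hpB b hb'
      · exact h.YQ1 b hbY a ha
  have hA'ne : Q1.reverse ++ t :: (E2.reverse ++ q :: B.reverse) ≠ [] := by simp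
  have hlA' : Link G p (Q1.reverse ++ t :: (E2.reverse ++ q :: B.reverse)) z ∧ p ≠ z ∧
      ¬ G.Adj p z := by
    rw [← cc_link_iff hA'ne]
    simpa using w5
  have hlA : Link G p A z := by
    have h1 := h.IPpY
    rw [hYZ] at h1
    have h2 : IP G ([] ++ (p :: (A ++ [z])) ++ B) := by simpa using h1
    exact ((cc_link_iff hAne).mp (cc_infix h2)).1
  have hAA' : Anti G (Q1.reverse ++ t :: (E2.reverse ++ q :: B.reverse)) A := by
    intro a ha b hb
    have hbY := hAY b hb
    simp only [List.mem_append, List.mem_cons, List.mem_reverse] at ha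
    rcases ha with ha | rfl | ha | rfl | ha
    · exact ⟨fun h6 => h.YQ b hbY (by rw [← h6]; simp [ha]), h.YQ1 b hbY a ha⟩
    · exact ⟨fun h6 => h.Yt (h6 ▸ hbY), ht b hbY⟩
    · exact ⟨fun h6 => h.YE b hbY (by rw [← h6]; simp [ha]), h.YE2 b hbY a ha⟩
    · exact ⟨fun h6 => h.YE b hbY (by rw [← h6]; simp), hqA b hb⟩
    · have h1 := h.Yip
      rw [hYZ, cc_append] at h1
      have h2 := h1.2.2 b hb a (by simp [ha])
      refine ⟨h2.1.symm, ?_⟩
      intro h3
      have h4 := (h2.2.mp h3.symm).2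
      simp only [List.head?_cons, Option.some.injEq] at h4
      have h5 := (List.nodup_cons.mp h1.2.1.1).1
      exact h5 (h4 ▸ ha)
  have hct : c ≠ t := by
    intro h1
    apply h.tQ
    rw [← h1]
    simp
  have hctn : ¬ G.Adj c t := fun h1 => hG.1 s c t h.sc h1 h.st
  have hcA'mem : c ∉ Q1.reverse ++ t :: (E2.reverse ++ q :: B.reverse) := by
    intro hm
    simp only [List.mem_append, List.mem_cons, List.mem_reverse] at hm
    rcases hm with hm | hm | hm | hm | hm
    · exact h.cQ (by simp [hm])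
    · exact hct hm
    · exact (h.anti c (by simp) c (by simp [hm])).1 rfl
    · exact (h.anti c (by simp) q (by simp)).1 hm
    · exact hcY (hBY c hm)
  have hcQ1 : ∀ x ∈ Q1, ¬ G.Adj c x := by
    intro x hx h1
    have h2 := h.hQ.2.1
    rw [cc_append] at h2
    have h3 := (h2.2.2 x hx c (by simp)).2.mp h1.symm
    have h4 := h3.2
    simp only [List.head?_cons, Option.some.injEq] at h4
    exact h.pc h4
  -- no contact of c in B
  have hcB : ∀ x ∈ B, ¬ G.Adj c x := by
    intro x hx h1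
    have hIC := hCY2 V G p z A (Q1.reverse ++ t :: (E2.reverse ++ q :: B.reverse)) hlA hlA'.1
      (cc_anti_symm hAA') hlA'.2.1 hlA'.2.2
    apply hW
    refine ⟨c, _, p, z, x, hIC, ?_, by simp, by simp, ?_, hlA'.2.1, ?_, ?_, hpc.symm, hz, h1⟩
    · intro hm
      simp only [List.mem_cons, List.mem_append, List.mem_reverse] at hm hcA'mem
      rcases hm with hm | hm | hm | hm
      · exact h.pc hm.symm
      · exact hcY (hAY c hm)
      · exact hcY (hm ▸ hzY)
      · exact hcA'mem hm
    · simp [hx]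
    · intro h2
      exact hpY (h2 ▸ hBY x hx)
    · intro h2
      rw [hYZ, List.nodup_append] at hYnd
      exact (List.nodup_cons.mp hYnd.2.1).1 (h2 ▸ hx)
  have hvA' : Anti G [c] (Q1.reverse ++ t :: (E2.reverse ++ q :: B.reverse)) := by
    intro a ha b hb
    rw [List.mem_singleton] at ha
    subst ha
    refine ⟨fun h1 => hcA'mem (h1 ▸ hb), ?_⟩
    simp only [List.mem_append, List.mem_cons, List.mem_reverse] at hb
    rcases hb with hb | rfl | hb | rfl | hb
    · exact hcQ1 b hb
    · exact hctn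
    · exact (h.anti a (by simp) b (by simp [hb])).2
    · exact (h.anti a (by simp) b (by simp)).2
    · exact hcB b hb
  have hvA : Anti G [c] A := by
    intro a ha b hb
    rw [List.mem_singleton] at ha
    subst ha
    exact ⟨fun h1 => hcY (h1 ▸ hAY b hb), hA b hb⟩
  have hsA : Anti G [s] A := by
    intro a ha b hb
    rw [List.mem_singleton] at ha
    subst ha
    exact ⟨(h.Ys b (hAY b hb)).1.symm, (h.Ys b (hAY b hb)).2⟩
  have hfin := hHUB V G c s p z (Q1.reverse ++ t :: (E2.reverse ++ q :: B.reverse)) A hG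
    hpc.symm hz hlA'.2.1 h.sc.symm (fun h1 => h.sQ (by rw [h1]; simp))
    (h.Ys z hzY).1.symm hlA'.1 hlA (by exact hAA') hvA' hvA hsA ?_ ⟨t, by simp, h.st⟩
  · exact hfin.elim hW hK
  · intro hm
    have e1 := h.sQ
    have e2 := h.hE.2.2.1
    simp only [List.mem_append, List.mem_cons, List.mem_reverse, List.not_mem_nil,
      or_false] at hm e1 e2
    rcases hm with hm | hm | hm | hm | hm
    · exact e1 (Or.inl hm)
    · exact h.st.ne hm
    · exact e2 (Or.inr (Or.inr (Or.inr hm)))
    · exact e2 (Or.inr (Or.inr (Or.inl hm)))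
    · exact (h.Ys s (hBY s hm)).1 rfl

end ctx

/-- the index of an unordered pair -/
def ccIdx : Fin 4 → Fin 4 → Fin 6 :=
  ![![0, 0, 1, 2], ![0, 0, 3, 4], ![1, 3, 0, 5], ![2, 4, 5, 0]]

/-- the matrix of lists -/
def ccMat (D : Fin 6 → List V) : Fin 4 → Fin 4 → List V :=
  ![![[], D 0, D 1, D 2], ![(D 0).reverse, [], D 3, D 4],
    ![(D 1).reverse, (D 3).reverse, [], D 5], ![(D 2).reverse, (D 4).reverse, (D 5).reverse, []]]

lemma ccMat_mem (D : Fin 6 → List V) (i j : Fin 4) (hij : i ≠ j) (x : V) :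
    x ∈ ccMat D i j ↔ x ∈ D (ccIdx i j) := by
  fin_cases i <;> fin_cases j <;> simp_all [ccMat, ccIdx]

lemma ccIdx_ne : ∀ i j k l : Fin 4, i ≠ j → k ≠ l → ¬ (i = k ∧ j = l) → ¬ (i = l ∧ j = k) →
    ccIdx i j ≠ ccIdx k l := by
  decide

lemma ccMat_rev (D : Fin 6 → List V) (i j : Fin 4) : ccMat D j i = (ccMat D i j).reverse := by
  fin_cases i <;> fin_cases j <;> simp [ccMat]

lemma cc_mkK (x : Fin 4 → V) (D : Fin 6 → List V)
    (hD : ∀ a b : Fin 6, a < b → Anti G (D a) (D b))
    (hx : ∀ (i j : Fin 4), i ≠ j → ∀ k, k ≠ i → k ≠ j → Anti G [x k] (D (ccIdx i j)))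
    (hP : ∀ (i j : Fin 4), i < j → IP G (x i :: (ccMat D i j ++ [x j]))) :
    KSys G x (ccMat D) := by
  have hP' : ∀ (i j : Fin 4), i ≠ j → IP G (x i :: (ccMat D i j ++ [x j])) := by
    intro i j hij
    rcases lt_or_gt_of_ne hij with h | h
    · exact hP i j h
    · have := cc_rev (hP j i h)
      rw [ccMat_rev D j i]
      simpa using this
  have hD' : ∀ a b : Fin 6, a ≠ b → Anti G (D a) (D b) := by
    intro a b hab
    rcases lt_or_gt_of_ne hab with h | h
    · exact hD a b h
    · exact cc_anti_symm (hD b a h)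
  refine ⟨?_, fun i j => ccMat_rev D i j, ?_, ?_, ?_, ?_, ?_⟩
  · intro i j hij
    by_contra hne
    have := hP' i j hne
    rw [cc_cons] at this
    exact (this.2 (x j) (by simp)).1 hij
  · intro i j hij h
    have := hP' i j hij
    rw [h, cc_cons] at this
    exact (this.2 (x j) (by simp)).2.mpr (by simp)
  · intro i j hij h
    exact ((cc_link_iff h).mp (hP' i j hij)).2.2
  · intro i j hij h
    exact ((cc_link_iff h).mp (hP' i j hij)).1
  · intro i j k l hij hkl h1 h2 a ha b hb
    rw [ccMat_mem D i j hij] at ha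
    rw [ccMat_mem D k l hkl] at hb
    exact hD' _ _ (ccIdx_ne i j k l hij hkl h1 h2) a ha b hb
  · intro i j k hij hk1 hk2 a ha b hb
    rw [ccMat_mem D i j hij] at hb
    exact hx i j hij k hk1 hk2 a ha b hb

lemma cc_nop4 (D : Fin 6 → List V) (h1 : D 1 ≠ []) (h2 : D 2 ≠ []) (h5 : D 5 ≠ []) :
    NoP4 (ccMat D) := by
  intro i j k l a1 a2 a3 a4 a5 a6
  fin_cases i <;> fin_cases j <;> fin_cases k <;> fin_cases l <;> simp_all [ccMat]

/-- case IV: no contacts -/
lemma CCX.case4 {s t p q c e : V} {Q1 Q2 E1 E2 Y : List V}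
    (h : CCX G s t p q c e Q1 Q2 E1 E2 Y)
    (ht : ∀ y ∈ Y, ¬ G.Adj t y) (hc : ∀ y ∈ Y, ¬ G.Adj c y) (he : ∀ y ∈ Y, ¬ G.Adj e y) :
    HasK G := by
  have hpq := h.anti p (by simp) q (by simp)
  have hQip := h.hQ.2.1
  have hEip := h.hE.2.1
  -- separated parts
  have sQ : Anti G (Q2 ++ [c]) Q1 := by
    intro a ha b hb
    rw [cc_append] at hQip
    have h1 := hQip.2.2 b hb a (by simp only [List.mem_cons]; exact Or.inr ha)
    refine ⟨h1.1.symm, ?_⟩
    intro h2
    have h3 := (h1.2.mp h2.symm).2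
    simp only [List.head?_cons, Option.some.injEq] at h3
    exact (List.nodup_cons.mp hQip.2.1.1).1 (h3 ▸ ha)
  have sE : Anti G (e :: E1) E2 := by
    intro a ha b hb
    have h0 : IP G ((e :: E1) ++ (q :: E2)) := by simpa using hEip
    rw [cc_append] at h0
    have h1 := h0.2.2 a ha b (by simp [hb])
    refine ⟨h1.1, ?_⟩
    intro h2
    have h3 := (h1.2.mp h2).2
    simp only [List.head?_cons, Option.some.injEq] at h3
    exact (List.nodup_cons.mp h0.2.1.1).1 (h3 ▸ hb)
  have tQ2 : Anti G [t] (Q2 ++ [c]) := by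
    intro a ha b hb
    rw [List.mem_singleton] at ha
    subst ha
    have hbQ : b ∈ Q1 ++ p :: (Q2 ++ [c]) := by
      simp only [List.mem_append, List.mem_cons] at hb ⊢
      tauto
    refine ⟨fun h1 => h.tQ (h1 ▸ hbQ), ?_⟩
    intro h1
    have h2 := (h.hQ.2.2.2.2.1 b hbQ).mp h1
    have hnd := h.Qnd
    rw [List.nodup_append] at hnd
    cases Q1 with
    | nil =>
      simp only [List.nil_append, List.head?_cons, Option.some.injEq] at h2
      exact (List.nodup_cons.mp hnd.2.1).1 (h2 ▸ hb)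
    | cons x X =>
      simp only [List.cons_append, List.head?_cons, Option.some.injEq] at h2
      exact hnd.2.2 x (by simp) b (by simp only [List.mem_cons]; exact Or.inr hb) h2
  have tE1 : Anti G [t] (e :: E1) := by
    intro a ha b hb
    rw [List.mem_singleton] at ha
    subst ha
    have hbE : b ∈ e :: (E1 ++ q :: E2) := by
      simp only [List.mem_append, List.mem_cons] at hb ⊢
      tauto
    refine ⟨fun h1 => h.hE.2.2.2.1 (h1 ▸ hbE), ?_⟩
    intro h1
    have h2 := (h.hE.2.2.2.2.2 b hbE).mp h1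
    have hnd := h.hE.2.1.1
    have hnd2 : ((e :: E1) ++ (q :: E2)).Nodup := by simpa using hnd
    rw [List.nodup_append] at hnd2
    have h2' : ((e :: E1) ++ (q :: E2)).getLast? = some b := by simpa using h2
    rw [List.getLast?_append] at h2'
    have h3 : (q :: E2).getLast? = some b := by
      cases hB : (q :: E2).getLast? with
      | none => simp at hB
      | some v =>
        rw [hB] at h2'
        simpa using h2'
    exact hnd2.2.2 b hb b (cc_last_mem h3) rfl
  have sQ1 : Anti G [s] Q1 := by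
    intro a ha b hb
    rw [List.mem_singleton] at ha
    subst ha
    have hbQ : b ∈ Q1 ++ p :: (Q2 ++ [c]) := by simp [hb]
    refine ⟨fun h1 => h.sQ (h1 ▸ hbQ), ?_⟩
    intro h1
    have h2 := h.sadjQ hbQ h1
    apply h.cQ
    rw [← h2]
    simp [hb]
  have sE2 : Anti G [s] E2 := by
    intro a ha b hb
    rw [List.mem_singleton] at ha
    subst ha
    have hbE : b ∈ e :: (E1 ++ q :: E2) := by simp [hb]
    refine ⟨fun h1 => h.hE.2.2.1 (h1 ▸ hbE), ?_⟩
    intro h1
    have h2 := h.sadjE hbE h1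
    apply h.eE
    rw [← h2]
    simp [hb]
  have sY : Anti G [s] Y := by
    intro a ha b hb
    rw [List.mem_singleton] at ha
    subst ha
    exact ⟨(h.Ys b hb).1.symm, (h.Ys b hb).2⟩
  have tY : Anti G [t] Y := by
    intro a ha b hb
    rw [List.mem_singleton] at ha
    subst ha
    exact ⟨fun h1 => h.Yt (h1 ▸ hb), ht b hb⟩
  have mQ : ∀ a ∈ Q2 ++ [c], a ∈ Q1 ++ p :: (Q2 ++ [c]) := by
    intro a ha
    simp only [List.mem_append, List.mem_cons] at ha ⊢
    tauto
  have mE : ∀ a ∈ e :: E1, a ∈ e :: (E1 ++ q :: E2) := by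
    intro a ha
    simp only [List.mem_append, List.mem_cons] at ha ⊢
    tauto
  have mQ1 : ∀ a ∈ Q1, a ∈ Q1 ++ p :: (Q2 ++ [c]) := by
    intro a ha
    simp [ha]
  have mE2 : ∀ a ∈ E2, a ∈ e :: (E1 ++ q :: E2) := by
    intro a ha
    simp [ha]
  have mp : p ∈ Q1 ++ p :: (Q2 ++ [c]) := by simp
  have mq : q ∈ e :: (E1 ++ q :: E2) := by simp
  have QY : Anti G (Q2 ++ [c]) Y := by
    intro a ha b hb
    refine ⟨fun h1 => h.YQ b hb (h1 ▸ mQ a ha), ?_⟩
    simp only [List.mem_append, List.mem_cons, List.not_mem_nil, or_false] at ha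
    rcases ha with ha | rfl
    · exact h.YQ2 b hb a ha
    · exact hc b hb
  have EY : Anti G (e :: E1) Y := by
    intro a ha b hb
    refine ⟨fun h1 => h.YE b hb (h1 ▸ mE a ha), ?_⟩
    simp only [List.mem_cons] at ha
    rcases ha with rfl | ha
    · exact he b hb
    · exact h.YE1 b hb a ha
  have Q1Y : Anti G Q1 Y := fun a ha b hb =>
    ⟨fun h1 => h.YQ b hb (h1 ▸ mQ1 a ha), h.YQ1 b hb a ha⟩
  have E2Y : Anti G E2 Y := fun a ha b hb =>
    ⟨fun h1 => h.YE b hb (h1 ▸ mE2 a ha), h.YE2 b hb a ha⟩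
  have QE : Anti G (Q2 ++ [c]) (e :: E1) := fun a ha b hb => h.anti a (mQ a ha) b (mE b hb)
  have QE2 : Anti G (Q2 ++ [c]) E2 := fun a ha b hb => h.anti a (mQ a ha) b (mE2 b hb)
  have Q1E : Anti G Q1 (e :: E1) := fun a ha b hb => h.anti a (mQ1 a ha) b (mE b hb)
  have Q1E2 : Anti G Q1 E2 := fun a ha b hb => h.anti a (mQ1 a ha) b (mE2 b hb)
  have pE : Anti G [p] (e :: E1) := by
    intro a ha b hb
    rw [List.mem_singleton] at ha
    subst ha
    exact h.anti a mp b (mE b hb)
  have pE2 : Anti G [p] E2 := by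
    intro a ha b hb
    rw [List.mem_singleton] at ha
    subst ha
    exact h.anti a mp b (mE2 b hb)
  have qQ : Anti G [q] (Q2 ++ [c]) := by
    intro a ha b hb
    rw [List.mem_singleton] at ha
    subst ha
    exact cc_anti_symm h.anti a mq b (mQ b hb)
  have qQ1 : Anti G [q] Q1 := by
    intro a ha b hb
    rw [List.mem_singleton] at ha
    subst ha
    exact cc_anti_symm h.anti a mq b (mQ1 b hb)
  -- reversed versions
  have rev_right : ∀ A B : List V, Anti G A B → Anti G A B.reverse := by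
    intro A B h1 a ha b hb
    exact h1 a ha b (by simpa using hb)
  have rev_left : ∀ A B : List V, Anti G A B → Anti G A.reverse B := by
    intro A B h1 a ha b hb
    exact h1 a (by simpa using ha) b hb
  have nilL : ∀ B : List V, Anti G [] B := fun B a ha => by simp at ha
  have nilR : ∀ B : List V, Anti G B [] := fun B a _ b hb => by simp at hb
  -- the paths
  have P01 : IP G (s :: ([] ++ [t])) := by
    rw [cc_cons]
    refine ⟨cc_single t, ?_⟩
    intro b hb
    have : b = t := by simpa using hb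
    subst this
    exact ⟨h.st.ne, by simp [h.st]⟩
  have P02 : IP G (s :: ((Q2 ++ [c]).reverse ++ [p])) := by
    have h1 := cc_link_right h.hQ
    have h2 : IP G (Q1 ++ (p :: (Q2 ++ [c] ++ [s])) ++ []) := by simpa using h1
    simpa using cc_rev (cc_infix h2)
  have P03 : IP G (s :: ((e :: E1) ++ [q])) := by
    have h1 := cc_link_left h.hE
    have h2 : IP G ([] ++ (s :: ((e :: E1) ++ [q])) ++ E2) := by simpa using h1
    exact cc_infix h2
  have P12 : IP G (t :: (Q1 ++ [p])) := by
    have h1 := cc_link_left h.hQ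
    have h2 : IP G ([] ++ (t :: (Q1 ++ [p])) ++ (Q2 ++ [c])) := by simpa using h1
    exact cc_infix h2
  have P13 : IP G (t :: (E2.reverse ++ [q])) := by
    have h1 := cc_link_right h.hE
    have h2 : IP G ((e :: E1) ++ (q :: (E2 ++ [t])) ++ []) := by simpa using h1
    simpa using cc_rev (cc_infix h2)
  have P23 : IP G (p :: (Y ++ [q])) := by
    rw [cc_link_iff h.Yne]
    exact ⟨cc_mk h.Yne h.IPpY h.IPYq, hpq.1, hpq.2⟩
  refine ⟨![s, t, p, q], ccMat ![[], (Q2 ++ [c]).reverse, e :: E1, Q1, E2.reverse, Y],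
    cc_mkK _ _ ?_ ?_ ?_, cc_nop4 _ ?_ ?_ ?_⟩
  · intro a b hab
    fin_cases a <;> fin_cases b <;> first
      | exact absurd hab (by decide)
      | exact nilL _
      | exact rev_left _ _ QE
      | exact rev_left _ _ sQ
      | exact rev_left _ _ (rev_right _ _ QE2)
      | exact rev_left _ _ QY
      | exact cc_anti_symm Q1E
      | exact rev_right _ _ sE
      | exact EY
      | exact rev_right _ _ Q1E2
      | exact Q1Y
      | exact rev_left _ _ E2Y
  · intro i j hij k hk1 hk2
    fin_cases i <;> fin_cases j <;> first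
      | exact absurd rfl hij
      | (fin_cases k <;> first
        | exact absurd rfl hk1
        | exact absurd rfl hk2
        | exact nilR _
        | exact rev_right _ _ tQ2
        | exact rev_right _ _ qQ
        | exact tE1
        | exact pE
        | exact sQ1
        | exact qQ1
        | exact rev_right _ _ sE2
        | exact rev_right _ _ pE2
        | exact sY
        | exact tY)
  · intro i j hij
    fin_cases i <;> fin_cases j <;> first
      | exact absurd hij (by decide)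
      | exact P01
      | exact P02
      | exact P03
      | exact P12
      | exact P13
      | exact P23
  · simp
  · simp
  · simpa using h.Yne

theorem st_CC (hCY1 : ST_CY1) (hCY2 : ST_CY2) (hEAR : ST_EAR) (hHUB : ST_HUB) (hR : ST_REV)
    (hDST : ST_DST) : ST_CC := by
  intro V G s t Q E hG hT hW hK hO hst hQ hE hQE hpre
  -- decompose Q and E
  obtain ⟨Q0, c, hQc⟩ : ∃ Q0 c, Q = Q0 ++ [c] :=
    ⟨Q.dropLast, Q.getLast hQ.1, (List.dropLast_append_getLast hQ.1).symm⟩
  obtain ⟨e, E0, hEe⟩ := List.exists_cons_of_ne_nil hE.1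
  subst hQc hEe
  have hsc : G.Adj s c := (hQ.2.2.2.2.2 c (by simp)).mpr (by simp)
  have hse : G.Adj s e := (hE.2.2.2.2.1 e (by simp)).mpr (by simp)
  have hQ0 : Q0 ≠ [] := by
    rintro rfl
    have h1 : G.Adj t c := (hQ.2.2.2.2.1 c (by simp)).mpr (by simp)
    exact hG.1 s c t hsc h1.symm hst
  have hE0 : E0 ≠ [] := by
    rintro rfl
    have h1 : G.Adj t e := (hE.2.2.2.2.2 e (by simp)).mpr (by simp)
    exact hG.1 s e t hse h1.symm hst
  have hQnd := hQ.2.1.1
  have hEnd := hE.2.1.1
  have hfarQ : ∀ x ∈ Q0, x ∈ Far G s := by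
    intro x hx
    refine ⟨fun h1 => hQ.2.2.2.1 (by rw [← h1]; simp [hx]), ?_⟩
    intro h1
    have h2 := (hQ.2.2.2.2.2 x (by simp [hx])).mp h1
    simp only [List.getLast?_append, List.getLast?_singleton, Option.some_or,
      Option.some.injEq] at h2
    rw [List.nodup_append] at hQnd
    exact hQnd.2.2 x hx c (by simp) h2.symm
  have hfarE : ∀ x ∈ E0, x ∈ Far G s := by
    intro x hx
    refine ⟨fun h1 => hE.2.2.1 (by rw [← h1]; simp [hx]), ?_⟩
    intro h1
    have h2 := (hE.2.2.2.2.1 x (by simp [hx])).mp h1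
    simp only [List.head?_cons, Option.some.injEq] at h2
    exact (List.nodup_cons.mp hEnd).1 (h2 ▸ hx)
  obtain ⟨Y, hYne, hYip, hYK, hYp, hYq⟩ := hDST V G (Far G s) {x | x ∈ Q0} {x | x ∈ E0} hpre
    hfarQ hfarE (List.exists_mem_of_ne_nil _ hQ0) (List.exists_mem_of_ne_nil _ hE0)
    (fun p hp q hq => hQE p (by simp only [List.mem_append]; exact Or.inl hp) q
      (by simp only [List.mem_cons]; exact Or.inr hq))
  have hfar_c : c ∉ Far G s := fun h => h.2 hsc
  have hfar_e : e ∉ Far G s := fun h => h.2 hse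
  have hfar_t : t ∉ Far G s := fun h => h.2 hst
  have hYt : t ∉ Y := fun h => hfar_t (hYK t h).1
  have hYQ : ∀ y ∈ Y, y ∉ Q0 ++ [c] := by
    intro y hy h1
    simp only [List.mem_append, List.mem_singleton] at h1
    rcases h1 with h1 | rfl
    · exact (hYK y hy).2.1 h1
    · exact hfar_c (hYK y hy).1
  have hYE : ∀ y ∈ Y, y ∉ e :: E0 := by
    intro y hy h1
    simp only [List.mem_cons] at h1
    rcases h1 with rfl | h1
    · exact hfar_e (hYK y hy).1
    · exact (hYK y hy).2.2 h1
  -- cycles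
  have hC1 := hCY1 V G _ _ _ hQ hst.symm
  have hC2 := hCY1 V G _ _ _ hE hst
  have one1 : ∀ y ∈ Y, ∀ a ∈ Q0 ++ [c], ∀ b ∈ Q0 ++ [c], G.Adj a y → G.Adj b y → a = b := by
    intro y hy a ha b hb h1 h2
    refine hO _ hC1 y ?_ a ?_ b ?_ h1.symm h2.symm
    · intro hm
      simp only [List.mem_cons, List.mem_append, List.not_mem_nil, or_false] at hm
      have := hYQ y hy
      simp only [List.mem_cons, List.mem_append, List.not_mem_nil, or_false] at this
      rcases hm with rfl | hm | rfl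
      · exact hYt hy
      · exact this hm
      · exact (hYK y hy).1.1 rfl
    · simp only [List.mem_cons, List.mem_append, List.not_mem_nil, or_false] at ha ⊢
      tauto
    · simp only [List.mem_cons, List.mem_append, List.not_mem_nil, or_false] at hb ⊢
      tauto
  have one2 : ∀ y ∈ Y, ∀ a ∈ e :: E0, ∀ b ∈ e :: E0, G.Adj a y → G.Adj b y → a = b := by
    intro y hy a ha b hb h1 h2
    refine hO _ hC2 y ?_ a ?_ b ?_ h1.symm h2.symm
    · intro hm
      simp only [List.mem_cons, List.mem_append, List.not_mem_nil, or_false] at hm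
      have := hYE y hy
      simp only [List.mem_cons] at this
      rcases hm with rfl | hm | rfl
      · exact (hYK y hy).1.1 rfl
      · exact this hm
      · exact hYt hy
    · simp only [List.mem_cons, List.mem_append, List.not_mem_nil, or_false] at ha ⊢
      tauto
    · simp only [List.mem_cons, List.mem_append, List.not_mem_nil, or_false] at hb ⊢
      tauto
  -- p and q
  obtain ⟨y1, hy1⟩ : ∃ y1, Y.head? = some y1 := by
    obtain ⟨y, Y', rfl⟩ := List.exists_cons_of_ne_nil hYne
    exact ⟨y, rfl⟩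
  obtain ⟨y2, hy2⟩ : ∃ y2, Y.getLast? = some y2 :=
    ⟨Y.getLast hYne, List.getLast?_eq_some_getLast hYne⟩
  have hy1Y := cc_head_mem hy1
  have hy2Y := cc_last_mem hy2
  obtain ⟨p, hp, hpy⟩ := (hYp y1 hy1Y).mpr hy1
  obtain ⟨q, hq, hqy⟩ := (hYq y2 hy2Y).mpr hy2
  obtain ⟨Q1, Q2, hQ12⟩ := List.append_of_mem (show p ∈ Q0 from hp)
  obtain ⟨E1, E2, hE12⟩ := List.append_of_mem (show q ∈ E0 from hq)
  subst hQ12 hE12
  have eQ : Q1 ++ p :: Q2 ++ [c] = Q1 ++ p :: (Q2 ++ [c]) := by simp
  have hQnd2 : (Q1 ++ p :: (Q2 ++ [c])).Nodup := by rw [← eQ]; exact hQnd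
  rw [List.nodup_append] at hQnd2
  have hEnd2 := (List.nodup_cons.mp hEnd).2
  rw [List.nodup_append] at hEnd2
  have hX : CCX G s t p q c e Q1 Q2 E1 E2 Y := by
    refine ⟨hst, by rw [← eQ]; exact hQ, hE, by rw [← eQ]; exact hQE, hYne, hYip, ?_, hYt, ?_,
      hYE, ?_, ?_, ?_, ?_, ?_, ?_⟩
    · intro y hy
      exact (hYK y hy).1
    · intro y hy
      rw [← eQ]
      exact hYQ y hy
    · intro y hy
      constructor
      · intro h1
        exact (hYp y hy).mp ⟨p, hp, h1.symm⟩
      · intro h1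
        rw [hy1] at h1
        rw [← Option.some.inj h1]
        exact hpy.symm
    · intro y hy
      constructor
      · intro h1
        exact (hYq y hy).mp ⟨q, hq, h1.symm⟩
      · intro h1
        rw [hy2] at h1
        rw [← Option.some.inj h1]
        exact hqy.symm
    · intro y hy x hx h1
      have h2 := (hYp y hy).mp ⟨x, by simp [hx], h1.symm⟩
      rw [hy1] at h2
      have h3 := Option.some.inj h2
      rw [← h3] at h1
      have h4 := one1 y1 hy1Y x (by simp [hx]) p (by simp) h1 hpy.symm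
      exact hQnd2.2.2 x hx p (by simp) h4
    · intro y hy x hx h1
      have h2 := (hYp y hy).mp ⟨x, by simp [hx], h1.symm⟩
      rw [hy1] at h2
      have h3 := Option.some.inj h2
      rw [← h3] at h1
      have h4 := one1 y1 hy1Y x (by simp [hx]) p (by simp) h1 hpy.symm
      apply (List.nodup_cons.mp hQnd2.2.1).1
      rw [← h4]
      simp [hx]
    · intro y hy x hx h1
      have h2 := (hYq y hy).mp ⟨x, by simp [hx], h1.symm⟩
      rw [hy2] at h2
      have h3 := Option.some.inj h2
      rw [← h3] at h1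
      have h4 := one2 y2 hy2Y x (by simp [hx]) q (by simp) h1 hqy.symm
      exact hEnd2.2.2 x hx q (by simp) h4
    · intro y hy x hx h1
      have h2 := (hYq y hy).mp ⟨x, by simp [hx], h1.symm⟩
      rw [hy2] at h2
      have h3 := Option.some.inj h2
      rw [← h3] at h1
      have h4 := one2 y2 hy2Y x (by simp [hx]) q (by simp) h1 hqy.symm
      apply (List.nodup_cons.mp hEnd2.2.1).1
      rw [← h4]
      exact hx
  by_cases k1 : ∃ y ∈ Y, G.Adj t y
  · exact hX.case1 hCY1 hEAR hR hG hT hO hW k1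
  push Not at k1
  by_cases k2 : ∃ y ∈ Y, G.Adj c y
  · exact hX.case2 hCY1 hCY2 hEAR hHUB hG hT hO hW hK k1 k2
  push Not at k2
  by_cases k3 : ∃ y ∈ Y, G.Adj e y
  · refine (hX.symm hR).case2 hCY1 hCY2 hEAR hHUB hG hT hO hW hK ?_ ?_
    · intro y hy
      exact k1 y (by simpa using hy)
    · obtain ⟨y, hy, h1⟩ := k3
      exact ⟨y, by simpa using hy, h1⟩
  push Not at k3
  exact hK (hX.case4 k1 k2 k3)

end cc

end Pool.Agent.Helper64.HG
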